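import Mathlib
import Pool.Agent.DPO.Final

/-!
# MP_74cd3a_lc: distance-preserving orientations for a fixed number of pairs are in P

Full answer to Q2: for every fixed number `k` of pairs the decision problem is solvable in
(deterministic) polynomial time. The definitions are in `Pool/Agent/DPO/Defs.lean`. That the
encoding of inputs is injective is `Pool.Agent.DPO.Inst.encode_injective` in
`Pool/Agent/DPO/Final.lean`.
-/

namespace Pool.Agent.Results.MP_74cd3a_lc.DistancePreserving

open Pool.Agent.DPO

open Classical in
/-- For every fixed `k`, a deterministic Turing machine decides in polynomial time whether a finite
undirected (multi)graph with nonnegative rational edge lengths and `k` pairs `(s_i, t_i)` has an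
orientation with `d(s_i, t_i)` unchanged for all `i`. -/
theorem result (k : ℕ) :
    Nonempty (Turing.TM2ComputableInPolyTime (Inst.encode (k := k)) (fun b : Bool => [b])
      (fun x : Inst k => decide x.HasDistancePreservingOrientation)) :=
  main k

end Pool.Agent.Results.MP_74cd3a_lc.DistancePreserving
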